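import Pool.Agent.H38.WT.Targets

/-!
# wt_modules row SJ (helper2): few coincidences for the other path
-/

set_option autoImplicit false

namespace Pool.Agent.H2.WT

open Pool.Agent.H38.WT

theorem pf_SJ (h1 : T_SH) (h2 : T_SI) : T_SJ := by
  intro n hn x x' hx hxx hx'
  have h3 : 3 ≤ n := by omega
  let e : Fin 3 → Fin n := fun j => ⟨j.1, lt_of_lt_of_le j.2 h3⟩
  have hP : Pr (pJ n) x x' ≤ Nat.card (Σ q : Fin 3 × Fin 3,
      {U : SimpleGraph (Fin (n + 1)) // U.IsTree ∧ Disp1 (pJ n) U x (e q.1)}) := by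
    unfold Pr
    let f : {p : SimpleGraph (Fin (n + 1)) × Fin n × Fin n //
        p.1.IsTree ∧ Disp1 (pJ n) p.1 x p.2.1 ∧ Disp1 (pJ n) p.1 x' p.2.2} →
        (Σ q : Fin 3 × Fin 3,
          {U : SimpleGraph (Fin (n + 1)) // U.IsTree ∧ Disp1 (pJ n) U x (e q.1)}) :=
      fun p => ⟨(⟨p.1.2.1.1, by
          have := (h1 n hn p.1.1 x x' p.1.2.1 p.1.2.2 hx hxx hx' p.2.2.1 p.2.2.2).1; omega⟩,
        ⟨p.1.2.2.1, by
          have := (h1 n hn p.1.1 x x' p.1.2.1 p.1.2.2 hx hxx hx' p.2.2.1 p.2.2.2).2; omega⟩),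
        ⟨p.1.1, p.2.1, p.2.2.1⟩⟩
    let g : (Σ q : Fin 3 × Fin 3,
          {U : SimpleGraph (Fin (n + 1)) // U.IsTree ∧ Disp1 (pJ n) U x (e q.1)}) →
        SimpleGraph (Fin (n + 1)) × Fin n × Fin n := fun s => (s.2.1, e s.1.1, e s.1.2)
    have hgf : ∀ p, g (f p) = p.1 := fun p => rfl
    refine Nat.card_le_card_of_injective f ?_
    intro p p' h
    apply Subtype.ext
    rw [← hgf p, ← hgf p', h]
  refine hP.trans ?_
  rw [Nat.card_sigma]
  calc ∑ q : Fin 3 × Fin 3, Nat.card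
        {U : SimpleGraph (Fin (n + 1)) // U.IsTree ∧ Disp1 (pJ n) U x (e q.1)}
      ≤ ∑ _q : Fin 3 × Fin 3, 4 := Finset.sum_le_sum (fun q _ => h2 n h3 x (e q.1))
    _ = 36 := by
      rw [Finset.sum_const, Finset.card_univ, Fintype.card_prod, Fintype.card_fin]
      norm_num

end Pool.Agent.H2.WT
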